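import Pool.Agent.E8helper30.RG.Stm3
import Pool.Agent.E8helper79.RG.CycA

/-!
# S_HG (for `1 ≤ g`): graphs of large girth with many edges
-/

set_option autoImplicit false

namespace Pool.Agent.E8helper38.RG

open Pool.Agent.E8helper30.RG (S_BALL)

/-- the class of graphs -/
def Cls (n D g : ℕ) (G : SimpleGraph (Fin n)) : Prop :=
  (∀ u, {w | G.Adj u w}.ncard ≤ D) ∧ ∀ (v : Fin n) (w : G.Walk v v), w.IsCycle → g < w.length

theorem cls_bot (n D g : ℕ) : Cls n D g ⊥ := by
  constructor
  · intro u
    simp
  · intro v w hw
    exfalso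
    cases w with
    | nil => simp at hw
    | cons h p => simp at h

theorem cls_add {n D g : ℕ} {G : SimpleGraph (Fin n)} (hG : Cls n D g G) {u v : Fin n}
    (huv : u ≠ v) (hu : {w | G.Adj u w}.ncard < D) (hv : {w | G.Adj v w}.ncard < D)
    (hp : ∀ p : G.Walk v u, g < p.length + 1) : Cls n D g (G ⊔ SimpleGraph.edge u v) := by
  have hadj : ∀ x y, (G ⊔ SimpleGraph.edge u v).Adj x y →
      G.Adj x y ∨ (x = u ∧ y = v) ∨ (x = v ∧ y = u) := by
    intro x y h
    rw [SimpleGraph.sup_adj, SimpleGraph.edge_adj] at h
    rcases h with h | ⟨h, -⟩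
    · exact Or.inl h
    · exact Or.inr h
  constructor
  · intro x
    by_cases hxu : x = u
    · subst hxu
      have h1 : {w | (G ⊔ SimpleGraph.edge x v).Adj x w} ⊆ insert v {w | G.Adj x w} := by
        intro w hw
        rcases hadj x w hw with h | h | h
        · exact Or.inr h
        · exact Or.inl h.2
        · exact absurd h.1 huv
      have h2 := Set.ncard_le_ncard h1 (Set.toFinite _)
      have h3 := Set.ncard_insert_le v {w | G.Adj x w}
      omega
    · by_cases hxv : x = v
      · subst hxv
        have h1 : {w | (G ⊔ SimpleGraph.edge u x).Adj x w} ⊆ insert u {w | G.Adj x w} := by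
          intro w hw
          rcases hadj x w hw with h | h | h
          · exact Or.inr h
          · exact absurd h.1 hxu
          · exact Or.inl h.2
        have h2 := Set.ncard_le_ncard h1 (Set.toFinite _)
        have h3 := Set.ncard_insert_le u {w | G.Adj x w}
        omega
      · have h1 : {w | (G ⊔ SimpleGraph.edge u v).Adj x w} ⊆ {w | G.Adj x w} := by
          intro w hw
          rcases hadj x w hw with h | h | h
          · exact h
          · exact absurd h.1 hxu
          · exact absurd h.1 hxv
        exact (Set.ncard_le_ncard h1 (Set.toFinite _)).trans (hG.1 x)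
  · have hE : ∀ e ∈ (G ⊔ SimpleGraph.edge u v).edgeSet, e ≠ s(u, v) → e ∈ G.edgeSet := by
      intro e
      induction e using Sym2.ind with
      | _ a b =>
        intro he hne
        rw [SimpleGraph.mem_edgeSet] at he ⊢
        rcases hadj a b he with h | h | h
        · exact h
        · exact absurd (by rw [h.1, h.2]) hne
        · exact absurd (by rw [h.1, h.2]; exact Sym2.eq_swap) hne
    intro x w hw
    by_cases hmem : s(u, v) ∈ w.edges
    · obtain ⟨p, hp1, hp2⟩ := Pool.Agent.E8helper79.RG.cyc _ x w u v hw hmem
      have hq : ∀ e ∈ p.edges, e ∈ G.edgeSet := by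
        intro e he
        exact hE e (w.edges_subset_edgeSet (hp2 e he).1) (hp2 e he).2
      have := hp (p.transfer G hq)
      rw [SimpleGraph.Walk.length_transfer] at this
      omega
    · have hq : ∀ e ∈ w.edges, e ∈ G.edgeSet := by
        intro e he
        exact hE e (w.edges_subset_edgeSet he) (fun h => hmem (h ▸ he))
      have := hG.2 x (w.transfer G hq) (hw.transfer hq)
      rwa [SimpleGraph.Walk.length_transfer] at this

theorem t_HG (hB : S_BALL) : ∀ n D g : ℕ, 1 ≤ g → 2 ≤ D → 2 * D ^ g ≤ n →
    ∃ G : SimpleGraph (Fin n),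
      (∀ (v : Fin n) (w : G.Walk v v), w.IsCycle → g < w.length) ∧
        n * D ≤ 4 * G.edgeSet.ncard := by
  intro n D g hg hD hn
  classical
  obtain ⟨G, hG, hmax⟩ := Set.exists_max_image {G : SimpleGraph (Fin n) | Cls n D g G}
    (fun G => G.edgeSet.ncard) (Set.toFinite _) ⟨⊥, cls_bot n D g⟩
  refine ⟨G, hG.2, ?_⟩
  set U : Set (Fin n) := {v | {w | G.Adj v w}.ncard < D} with hU
  have near : ∀ v ∈ U, ∀ u ∈ U, u ≠ v → ¬ G.Adj v u → ∃ p : G.Walk v u, p.length + 1 ≤ g := by
    intro v hv u hu huv hna
    by_contra hcon
    push Not at hcon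
    have h1 := hmax _ (cls_add hG huv hu hv hcon)
    have h2 : (G ⊔ SimpleGraph.edge u v).edgeSet = insert s(u, v) G.edgeSet := by
      rw [SimpleGraph.edgeSet_sup, SimpleGraph.edgeSet_edge_of_ne huv, Set.union_comm]
      rfl
    have h3 : s(u, v) ∉ G.edgeSet := by
      rw [SimpleGraph.mem_edgeSet]
      exact fun h => hna h.symm
    simp only [h2, Set.ncard_insert_of_notMem h3 (Set.toFinite _)] at h1
    omega
  have hUc : U.ncard ≤ D ^ g := by
    rcases U.eq_empty_or_nonempty with h0 | ⟨v, hv⟩
    · rw [h0]; simp
    · by_cases h2 : 2 ≤ g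
      · refine le_trans (Set.ncard_le_ncard ?_ (Set.toFinite _)) (hB n D g G v hD hG.1)
        intro u hu
        by_cases huv : u = v
        · subst huv
          exact ⟨SimpleGraph.Walk.nil, by simp; omega⟩
        · by_cases ha : G.Adj v u
          · exact ⟨SimpleGraph.Walk.cons ha SimpleGraph.Walk.nil, by simp; omega⟩
          · exact near v hv u hu huv ha
      · have hg1 : g = 1 := by omega
        have h1 : U ⊆ insert v {w | G.Adj v w} := by
          intro u hu
          by_cases huv : u = v
          · exact Or.inl huv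
          · by_cases ha : G.Adj v u
            · exact Or.inr ha
            · obtain ⟨p, hp⟩ := near v hv u hu huv ha
              exact absurd (SimpleGraph.Walk.eq_of_length_eq_zero (p := p) (by omega)).symm huv
        have h2 := Set.ncard_le_ncard h1 (Set.toFinite _)
        have h3 := Set.ncard_insert_le v {w | G.Adj v w}
        have h4 : {w | G.Adj v w}.ncard < D := hv
        rw [hg1, pow_one]
        omega
  have hdeg : ∀ v, G.degree v = {w | G.Adj v w}.ncard := by
    intro v
    rw [← G.card_neighborSet_eq_degree, ← Nat.card_eq_fintype_card]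
    rfl
  have hsum := G.sum_degrees_eq_twice_card_edges
  have hcard : G.edgeFinset.card = G.edgeSet.ncard := by
    rw [Set.ncard_eq_toFinset_card']
    rfl
  rw [hcard] at hsum
  have hlow : (Finset.univ.filter (fun v => v ∉ U)).card * D ≤ ∑ v, G.degree v := by
    calc (Finset.univ.filter (fun v => v ∉ U)).card * D
        = ∑ v ∈ Finset.univ.filter (fun v => v ∉ U), D := by rw [Finset.sum_const, smul_eq_mul]
      _ ≤ ∑ v ∈ Finset.univ.filter (fun v => v ∉ U), G.degree v := by
          refine Finset.sum_le_sum fun v hv => ?_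
          have h1 : v ∉ U := (Finset.mem_filter.1 hv).2
          rw [hdeg]
          simp only [hU, Set.mem_ofPred_eq, not_lt] at h1
          exact h1
      _ ≤ ∑ v, G.degree v :=
          Finset.sum_le_sum_of_subset (Finset.filter_subset _ _)
  have hc : (Finset.univ.filter (fun v => v ∉ U)).card + U.ncard = n := by
    have h1 : U.ncard = (Finset.univ.filter (fun v => v ∈ U)).card := by
      rw [Set.ncard_eq_toFinset_card']
      congr 1
      ext x; simp
    rw [h1, add_comm, Finset.card_filter_add_card_filter_not]
    simp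
  have h5 : n ≤ 2 * (Finset.univ.filter (fun v => v ∉ U)).card := by omega
  calc n * D ≤ 2 * (Finset.univ.filter (fun v => v ∉ U)).card * D := Nat.mul_le_mul_right D h5
    _ = 2 * ((Finset.univ.filter (fun v => v ∉ U)).card * D) := by ring
    _ ≤ 2 * (2 * G.edgeSet.ncard) := by rw [← hsum]; exact Nat.mul_le_mul_left 2 hlow
    _ = 4 * G.edgeSet.ncard := by ring

end Pool.Agent.E8helper38.RG
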